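import Pool.Agent.U80.AM.Emb
import Pool.Agent.U80.PT.Root

/-!
# The characters of a multiquadratic field
-/

set_option autoImplicit false

open scoped Classical

namespace Pool.Agent.U80.AM

section

variable {F : Type} [Field F] [CharZero F] [FiniteDimensional ℚ F] {P : Finset ℕ} {n : ℕ}
  {S : Fin n → Finset ℕ} {r : Fin n → F}

/-- the elements with a good square -/
def GoodEl (P : Finset ℕ) (w : F) : Prop := ∃ (U : Finset ℕ) (k : ℕ), U ⊆ P ∧ k ≠ 0 ∧
  w ^ 2 = (((∏ q ∈ U, q) * k ^ 2 : ℕ) : F)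

lemma good_mul (hP : ∀ q ∈ P, q ≠ 0) {x y : F} (hx : GoodEl P x) (hy : GoodEl P y) :
    GoodEl P (x * y) := by
  obtain ⟨U, k, hU, hk, h1⟩ := hx
  obtain ⟨V, l, hV, hl, h2⟩ := hy
  refine ⟨symmDiff U V, (∏ q ∈ U ∩ V, q) * (k * l), ?_, ?_, ?_⟩
  · intro q hq
    rcases Finset.mem_symmDiff.1 hq with h | h
    · exact hU h.1
    · exact hV h.1
  · refine mul_ne_zero (Finset.prod_ne_zero_iff.2 fun q hq => hP q (hU (Finset.mem_inter.1 hq).1))
      (mul_ne_zero hk hl)
  · rw [mul_pow, h1, h2, ← Nat.cast_mul]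
    congr 1
    have h3 := Pool.Agent.U80.PT.prod_symm U V
    calc (∏ q ∈ U, q) * k ^ 2 * ((∏ q ∈ V, q) * l ^ 2) =
        ((∏ q ∈ U, q) * ∏ q ∈ V, q) * (k ^ 2 * l ^ 2) := by ring
      _ = ((∏ q ∈ symmDiff U V, q) * (∏ q ∈ U ∩ V, q) ^ 2) * (k ^ 2 * l ^ 2) := by rw [h3]
      _ = _ := by ring

lemma good_closure (hP : ∀ q ∈ P, q ≠ 0) (hS : ∀ i, S i ⊆ P)
    (hr : ∀ i, r i ^ 2 = ((∏ q ∈ S i, q : ℕ) : F)) {x : F}
    (hx : x ∈ Submonoid.closure (Set.range r)) : GoodEl P x := by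
  induction hx using Submonoid.closure_induction with
  | mem x hx =>
    obtain ⟨i, rfl⟩ := hx
    exact ⟨S i, 1, hS i, one_ne_zero, by rw [hr i, one_pow, mul_one]⟩
  | one => exact ⟨∅, 1, Finset.empty_subset _, one_ne_zero, by simp⟩
  | mul x y _ _ hx hy => exact good_mul hP hx hy

lemma good_sgn {w : F} (h : GoodEl P w) (g : F ≃ₐ[ℚ] F) : g w = w ∨ g w = -w := by
  obtain ⟨U, k, -, -, h1⟩ := h
  have h2 : (g w) ^ 2 = w ^ 2 := by rw [← map_pow, h1, map_natCast]
  exact sq_eq_sq_iff_eq_or_eq_neg.1 h2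

lemma mem_span (hgen : IntermediateField.adjoin ℚ (Set.range r) = ⊤) (x : F) :
    x ∈ Submodule.span ℚ (Submonoid.closure (Set.range r) : Set F) := by
  have h1 : (IntermediateField.adjoin ℚ (Set.range r)).toSubalgebra =
    Algebra.adjoin ℚ (Set.range r) := IntermediateField.adjoin_toSubalgebra _
  rw [← Algebra.adjoin_eq_span]
  show x ∈ Algebra.adjoin ℚ (Set.range r)
  rw [← h1, hgen]
  exact IntermediateField.mem_top

/-- the Galois group has exponent two -/
lemma gal_sq (hP : ∀ q ∈ P, q ≠ 0) (hS : ∀ i, S i ⊆ P)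
    (hr : ∀ i, r i ^ 2 = ((∏ q ∈ S i, q : ℕ) : F))
    (hgen : IntermediateField.adjoin ℚ (Set.range r) = ⊤) (g : F ≃ₐ[ℚ] F) : g * g = 1 := by
  ext x
  rw [AlgEquiv.mul_apply, AlgEquiv.one_apply]
  refine Submodule.span_induction (p := fun y _ => g (g y) = y) ?_ ?_ ?_ ?_ (mem_span hgen x)
  · intro y hy
    rcases good_sgn (good_closure hP hS hr hy) g with h | h
    · rw [h, h]
    · rw [h, map_neg, h, neg_neg]
  · rw [map_zero, map_zero]
  · intro y z _ _ hy hz
    rw [map_add, map_add, hy, hz]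
  · intro c y _ hy
    rw [Algebra.smul_def, map_mul, AlgEquiv.commutes, map_mul, AlgEquiv.commutes, hy]

lemma gal_galois (hr : ∀ i, r i ^ 2 = ((∏ q ∈ S i, q : ℕ) : F))
    (hgen : IntermediateField.adjoin ℚ (Set.range r) = ⊤) : IsGalois ℚ F := by
  haveI : NumberField F := { to_charZero := inferInstance, to_finiteDimensional := inferInstance }
  refine Pool.Agent.U80.PT.gal_of (S := Set.range r) ?_ hgen
  rintro _ ⟨i, rfl⟩
  exact ⟨((∏ q ∈ S i, q : ℕ) : ℚ), by rw [hr, map_natCast]⟩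

/-- **the characters come from square roots** -/
theorem exists_w (hP : ∀ q ∈ P, q ≠ 0) (hS : ∀ i, S i ⊆ P)
    (hr : ∀ i, r i ^ 2 = ((∏ q ∈ S i, q : ℕ) : F))
    (hgen : IntermediateField.adjoin ℚ (Set.range r) = ⊤) (ε : (F ≃ₐ[ℚ] F) → ℤ)
    (hε : ∀ g, ε g = 1 ∨ ε g = -1) (hεm : ∀ g h, ε (g * h) = ε g * ε h) :
    ∃ w : F, GoodEl P w ∧ ∀ g, g w = (ε g : F) * w := by
  haveI : Fintype (F ≃ₐ[ℚ] F) := AlgEquiv.fintype ℚ F
  have hsq : ∀ g : F ≃ₐ[ℚ] F, ε g * ε g = 1 := by
    intro g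
    rcases hε g with h | h <;> rw [h] <;> norm_num
  let e : F →ₗ[ℚ] F := ∑ g : F ≃ₐ[ℚ] F, (ε g : ℚ) • g.toLinearMap
  have he : ∀ x, e x = ∑ g : F ≃ₐ[ℚ] F, (ε g : F) * g x := by
    intro x
    simp only [e, LinearMap.sum_apply, LinearMap.smul_apply]
    refine Finset.sum_congr rfl fun g _ => ?_
    rw [Algebra.smul_def, map_intCast]
    rfl
  -- some value is not zero
  have hex : ∃ x ∈ Submonoid.closure (Set.range r), e x ≠ 0 := by
    by_contra hno
    push Not at hno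
    have h0 : ∀ x, e x = 0 := by
      intro x
      refine Submodule.span_induction (p := fun y _ => e y = 0) ?_ ?_ ?_ ?_ (mem_span hgen x)
      · intro y hy
        exact hno y hy
      · exact map_zero e
      · intro y z _ _ hy hz
        rw [map_add, hy, hz, add_zero]
      · intro c y _ hy
        rw [map_smul, hy, smul_zero]
    have hli := (linearIndependent_monoidHom F F).comp
      (fun g : F ≃ₐ[ℚ] F => ((g : F →ₐ[ℚ] F) : F →* F)) (by
        intro g h hgh
        ext x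
        exact DFunLike.congr_fun hgh x)
    have h1 := Fintype.linearIndependent_iff.1 hli (fun g => (ε g : F)) (by
      funext x
      rw [Finset.sum_apply]
      show ∑ g : F ≃ₐ[ℚ] F, (ε g : F) * g x = 0
      rw [← he, h0])
    have h2 := h1 1
    rcases hε 1 with h | h
    · rw [h] at h2
      norm_num at h2
    · rw [h] at h2
      norm_num at h2
  obtain ⟨x, hx, hex⟩ := hex
  have hg := good_closure hP hS hr hx
  refine ⟨x, hg, ?_⟩
  -- `e x` is a rational multiple of `x`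
  obtain ⟨c, hc⟩ : ∃ c : ℤ, e x = (c : F) * x := by
    refine ⟨∑ g : F ≃ₐ[ℚ] F, ε g * (if g x = x then 1 else -1), ?_⟩
    rw [he, Int.cast_sum, Finset.sum_mul]
    refine Finset.sum_congr rfl fun g _ => ?_
    by_cases h : g x = x
    · rw [if_pos h, h, mul_one]
    · rw [if_neg h, (good_sgn hg g).resolve_left h]
      push_cast
      ring
  have hc0 : (c : F) ≠ 0 := by
    intro h
    rw [h, zero_mul] at hc
    exact hex hc
  intro h
  have h1 : h (e x) = (ε h : F) * e x := by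
    rw [he, map_sum, Finset.mul_sum]
    refine Fintype.sum_equiv (Equiv.mulLeft h) _ _ fun g => ?_
    show h ((ε g : F) * g x) = (ε h : F) * ((ε (h * g) : F) * (h * g) x)
    rw [map_mul, map_intCast, hεm, AlgEquiv.mul_apply]
    have h2 : ((ε h : ℤ) : F) * (ε h : F) = 1 := by exact_mod_cast congrArg (fun z : ℤ => (z : F)) (hsq h)
    push_cast
    linear_combination -((ε g : F) * h (g x)) * h2
  rw [hc, map_mul, map_intCast] at h1
  have h3 : (c : F) * h x = (c : F) * ((ε h : F) * x) := by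
    rw [h1]
    ring
  exact mul_left_cancel₀ hc0 h3

end

end Pool.Agent.U80.AM
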