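import Pool.Agent.U80.GT.Ex
import Pool.Agent.U80.GT.Den

/-!
# An example with Selmer rank one: `y² = x³ - 14 x² - 7 x`
-/

set_option autoImplicit false

namespace Pool.Agent.U80.AM

open Pool.Agent.U80.NP Pool.Agent.U80.GT
open Pool.Agent.Y695 (LocA)

local instance fact7 : Fact (Nat.Prime 7) := ⟨by norm_num⟩

lemma sel147 : Sel (-14) (-7) = {1, -7} := by
  ext d
  constructor
  · intro h
    have h1 := n1 (p := 7) (by norm_num) (a := -14) (b := -7) (by norm_num) (by norm_num)
      (by norm_num) (by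
        have := h.2.2 7
        push_cast at this ⊢
        exact this : LocA ℚ_[7] ((-14 : ℤ) : ℚ_[7]) ((-7 : ℤ) : ℚ_[7]) (d : ℚ_[7]))
    rw [← Int.cast_mul] at h1
    have hd : d ∣ 7 := (sel_dvd h).trans (by norm_num)
    rcases dvd7 hd with rfl | rfl | rfl | rfl
    · exact Or.inl rfl
    · exfalso
      rcases h1 with h1 | h1
      · exact nsq7 (by norm_num) (by decide) h1
      · exact odd7 (u := 1) (by norm_num) (by norm_num at h1 ⊢; exact h1)
    · exfalso
      rcases h1 with h1 | h1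
      · exact odd7 (u := 1) (by norm_num) (by norm_num at h1 ⊢; exact h1)
      · exact nsq49 (u := -1) (by norm_num) (by decide) (by norm_num at h1 ⊢; exact h1)
    · exact Or.inr rfl
  · rintro (rfl | rfl)
    · exact one_mem _ _
    · refine ⟨?_, ?_, fun p _ => ?_⟩
      · refine Int.squarefree_natAbs.1 ?_
        show Squarefree (7 : ℕ)
        decide +kernel
      · exact Or.inr (Or.inl ⟨7, by norm_num⟩)
      · exact Or.inr (Or.inl ⟨7, by push_cast; ring⟩)

lemma dvd14 {d : ℤ} (h : d ∣ 14) : d = 1 ∨ d = 2 ∨ d = 7 ∨ d = 14 ∨ d < 0 := by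
  have h1 := Int.le_of_dvd (by norm_num) h
  by_cases h0 : d < 0
  · exact Or.inr (Or.inr (Or.inr (Or.inr h0)))
  · have h2 : 0 ≤ d := not_lt.1 h0
    interval_cases d <;> revert h <;> decide

lemma loc2 (K : Type) [Field K] : LocA K ((28 : ℤ) : K) ((224 : ℤ) : K) ((2 : ℤ) : K) ∨ (8 : K) = 0 := by
  by_cases h : (8 : K) = 0
  · exact Or.inr h
  · exact Or.inl (Or.inr (Or.inr ⟨8, 64, h, by push_cast; ring, 4, by push_cast; ring⟩))

lemma loc7 (K : Type) [Field K] : LocA K ((28 : ℤ) : K) ((224 : ℤ) : K) ((7 : ℤ) : K) ∨ (28 : K) = 0 := by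
  by_cases h : (28 : K) = 0
  · exact Or.inr h
  · exact Or.inl (Or.inr (Or.inr ⟨28, 224, h, by push_cast; ring, 14, by push_cast; ring⟩))

lemma sel28 : Sel 28 224 = {1, 2, 7, 14} := by
  ext d
  constructor
  · intro h
    have hd : d ∣ 14 := by
      have h1 : d ∣ (14 : ℤ) ^ 5 := (sel_dvd h).trans (by norm_num)
      exact (h.1.dvd_pow_iff_dvd (by norm_num)).1 h1
    rcases dvd14 hd with rfl | rfl | rfl | rfl | hneg
    · simp
    · simp
    · simp
    · simp
    · exfalso
      have hd : (d : ℝ) < 0 := by exact_mod_cast hneg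
      rcases h.2.1 with ⟨r, hr⟩ | ⟨r, hr⟩ | ⟨X, Y, hX, hY, r, hr⟩
      · nlinarith [mul_self_nonneg r]
      · push_cast at hr
        nlinarith [mul_self_nonneg r]
      · have hXn : X < 0 := by
          have h3 : 0 ≤ X * d := by rw [hr]; exact mul_self_nonneg r
          rcases lt_or_gt_of_ne hX with h4 | h4
          · exact h4
          · nlinarith
        push_cast at hY
        have h3 : 0 < X ^ 2 + 28 * X + 224 := by nlinarith [sq_nonneg (X + 14)]
        nlinarith [sq_nonneg Y]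
  · have sq2 : Squarefree (2 : ℤ) := (by norm_num : Prime (2 : ℤ)).squarefree
    have sq7 : Squarefree (7 : ℤ) := (by norm_num : Prime (7 : ℤ)).squarefree
    rintro (rfl | rfl | rfl | rfl)
    · exact one_mem _ _
    · refine ⟨sq2, ?_, fun p _ => ?_⟩
      · exact (loc2 ℝ).resolve_right (by norm_num)
      · exact (loc2 ℚ_[p]).resolve_right (by exact_mod_cast (by norm_num : (8 : ℕ) ≠ 0))
    · refine ⟨sq7, ?_, fun p _ => ?_⟩
      · exact (loc7 ℝ).resolve_right (by norm_num)
      · exact (loc7 ℚ_[p]).resolve_right (by exact_mod_cast (by norm_num : (28 : ℕ) ≠ 0))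
    · refine ⟨?_, ?_, fun p _ => ?_⟩
      · have h3 : Squarefree (14 : ℕ) := by decide +kernel
        exact_mod_cast Int.squarefree_natCast.2 h3
      · exact Or.inr (Or.inl ⟨56, by norm_num⟩)
      · exact Or.inr (Or.inl ⟨56, by push_cast; ring⟩)

/-- the Selmer groups of the example -/
theorem nn147 : NN (-14) (-7) = 4 * 2 ^ 1 := by
  unfold NN
  have e : Sel (-2 * -14) ((-14) ^ 2 - 4 * -7) = Sel 28 224 := by norm_num
  have h4 : ({1, 2, 7, 14} : Set ℤ).ncard = 4 := by
    have : ({1, 2, 7, 14} : Set ℤ) = (({1, 2, 7, 14} : Finset ℤ) : Set ℤ) := by simp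
    rw [this, Set.ncard_coe_finset]
    rfl
  rw [e, sel147, sel28, Set.ncard_pair (by norm_num), h4]
  norm_num

end Pool.Agent.U80.AM
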