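import Pool.Agent.U80.AM.Part
import Pool.Agent.U80.GT.Rk

/-!
# The points on which the Galois group acts by a character and the quadratic twist
-/

set_option autoImplicit false

open WeierstrassCurve

open scoped Classical TensorProduct

namespace Pool.Agent.U80.AM

open Pool.Agent.TH841.NF (Sc tF tF_add ns_iff)
open Pool.Agent.Y682 (gc gc_isT MP MP.group mt mt_inj fg_MP)

/-- the curve `y² = x³ + A x² + B x` over `ℚ` -/
def cq (A B : ℤ) : WeierstrassCurve ℚ := ⟨0, (A : ℚ), 0, (B : ℚ), 0⟩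

section

variable (A B : ℤ) (F : Type) [Field F] [CharZero F]

/-- the points over `F` -/
abbrev Pt : Type := ((cq A B).baseChange F).toAffine.Point

/-- the action -/
noncomputable def ac (g : F ≃ₐ[ℚ] F) : Pt A B F →+ Pt A B F :=
  WeierstrassCurve.Affine.Point.map (W' := (cq A B).toAffine) g.toAlgHom

variable {A B} {F}

lemma ac_some (g : F ≃ₐ[ℚ] F) {x y : F} (h : ((cq A B).baseChange F).toAffine.Nonsingular x y) :
    ∃ h', ac A B F g (.some x y h) = .some (g x) (g y) h' :=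
  ⟨_, rfl⟩

lemma ac_mul (g h : F ≃ₐ[ℚ] F) (P : Pt A B F) : ac A B F (g * h) P = ac A B F g (ac A B F h P) := by
  rcases P with _ | ⟨x, y, hP⟩
  · rfl
  · rfl

lemma sc_tw {m : ℤ} {w : F} (hw : w ^ 2 = (m : F)) (hm : m ≠ 0) :
    Sc (RingHom.id F) w ((cq A B).baseChange F) (gc (A * m) (B * m ^ 2) F) := by
  have hw0 : w ≠ 0 := by
    rintro rfl
    rw [zero_pow two_ne_zero] at hw
    exact hm (by exact_mod_cast hw.symm)
  refine ⟨hw0, ?_, ?_, ?_, ?_, ?_⟩
  · show (0 : F) = algebraMap ℚ F 0 * w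
    rw [map_zero, zero_mul]
  · show (((A * m : ℤ)) : F) = algebraMap ℚ F (A : ℚ) * w ^ 2
    rw [hw, map_intCast]
    push_cast
    ring
  · show (0 : F) = algebraMap ℚ F 0 * w ^ 3
    rw [map_zero, zero_mul]
  · show (((B * m ^ 2 : ℤ)) : F) = algebraMap ℚ F (B : ℚ) * w ^ 4
    rw [show w ^ 4 = (w ^ 2) ^ 2 by ring, hw, map_intCast]
    push_cast
    ring
  · show (0 : F) = algebraMap ℚ F 0 * w ^ 6
    rw [map_zero, zero_mul]

lemma sc_q (A B : ℤ) (F : Type) [Field F] [CharZero F] :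
    Sc (algebraMap ℚ F) 1 (gc A B ℚ) (gc A B F) := by
  refine ⟨one_ne_zero, ?_, ?_, ?_, ?_, ?_⟩
  · show (0 : F) = algebraMap ℚ F 0 * 1
    rw [map_zero, zero_mul]
  · show ((A : ℤ) : F) = algebraMap ℚ F (A : ℚ) * 1 ^ 2
    rw [map_intCast]
    ring
  · show (0 : F) = algebraMap ℚ F 0 * 1 ^ 3
    rw [map_zero, zero_mul]
  · show ((B : ℤ) : F) = algebraMap ℚ F (B : ℚ) * 1 ^ 4
    rw [map_intCast]
    ring
  · show (0 : F) = algebraMap ℚ F 0 * 1 ^ 6
    rw [map_zero, zero_mul]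

/-- the isomorphism with the twist, on points -/
noncomputable def phi {m : ℤ} {w : F} (hw : w ^ 2 = (m : F)) (hm : m ≠ 0) :
    Pt A B F →+ MP (gc (A * m) (B * m ^ 2) F) where
  toFun := tF (sc_tw hw hm)
  map_zero' := rfl
  map_add' := @tF_add _ _ _ _ _ _ _ _ (sc_tw hw hm) _ (Classical.decEq F)

lemma phi_inj {m : ℤ} {w : F} (hw : w ^ 2 = (m : F)) (hm : m ≠ 0) :
    Function.Injective (phi (A := A) (B := B) hw hm) := by
  have hw0 : w ≠ 0 := (sc_tw (A := A) (B := B) hw hm).hu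
  intro P Q h
  rcases P with _ | ⟨x, y, hx⟩ <;> rcases Q with _ | ⟨x', y', hx'⟩
  · rfl
  · exact absurd h.symm (Affine.Point.some_ne_zero _)
  · exact absurd h (Affine.Point.some_ne_zero _)
  · have h' : (Affine.Point.some (x * w ^ 2) (y * w ^ 3)
        ((ns_iff (sc_tw hw hm) x y).2 hx) : (gc (A * m) (B * m ^ 2) F).toAffine.Point) =
        .some (x' * w ^ 2) (y' * w ^ 3) ((ns_iff (sc_tw hw hm) x' y').2 hx') := h
    rw [Affine.Point.some.injEq] at h'
    have h1 := mul_right_cancel₀ (pow_ne_zero 2 hw0) h'.1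
    have h2 := mul_right_cancel₀ (pow_ne_zero 3 hw0) h'.2
    subst h1 h2
    rfl

/-- the fixed points are rational -/
theorem phi_range [FiniteDimensional ℚ F] [IsGalois ℚ F] {m : ℤ} {w : F} (hw : w ^ 2 = (m : F))
    (hm : m ≠ 0) {ε : (F ≃ₐ[ℚ] F) → ℤ} (hε : ∀ g, ε g = 1 ∨ ε g = -1)
    (hgw : ∀ g, g w = (ε g : F) * w) {P : Pt A B F} (hP : P ∈ eig (ac A B F) ε) :
    phi hw hm P ∈ (mt (sc_q (A * m) (B * m ^ 2) F)).range := by
  rcases P with _ | ⟨x, y, hx⟩
  · exact ⟨0, rfl⟩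
  · have hco : ∀ g : F ≃ₐ[ℚ] F, g x = x ∧ g y = (ε g : F) * y := by
      intro g
      obtain ⟨h', hg⟩ := ac_some (A := A) (B := B) g hx
      have h1 := hP g
      rw [hg] at h1
      rcases hε g with h | h
      · rw [h, one_smul, Affine.Point.some.injEq] at h1
        rw [h, Int.cast_one, one_mul]
        exact h1
      · rw [h, neg_smul, one_smul, Affine.Point.neg_some, Affine.Point.some.injEq] at h1
        rw [h, Int.cast_neg, Int.cast_one, neg_one_mul]
        refine ⟨h1.1, ?_⟩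
        rw [h1.2]
        show -y - algebraMap ℚ F 0 * x - algebraMap ℚ F 0 = -y
        rw [map_zero, zero_mul, sub_zero, sub_zero]
    have hsq : ∀ g : F ≃ₐ[ℚ] F, ((ε g : ℤ) : F) * (ε g : F) = 1 := by
      intro g
      rcases hε g with h | h <;> rw [h] <;> push_cast <;> ring
    have hX : ∀ g : F ≃ₐ[ℚ] F, g (x * w ^ 2) = x * w ^ 2 := by
      intro g
      rw [map_mul, map_pow, (hco g).1, hgw g]
      linear_combination x * w ^ 2 * hsq g
    have hY : ∀ g : F ≃ₐ[ℚ] F, g (y * w ^ 3) = y * w ^ 3 := by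
      intro g
      rw [map_mul, map_pow, (hco g).2, hgw g]
      linear_combination y * w ^ 3 * (((ε g : ℤ) : F) * (ε g : F) + 1) * hsq g
    obtain ⟨X, hX'⟩ := IntermediateField.mem_bot.1
      ((IsGalois.mem_bot_iff_fixed (F := ℚ) (E := F) _).2 hX)
    obtain ⟨Y, hY'⟩ := IntermediateField.mem_bot.1
      ((IsGalois.mem_bot_iff_fixed (F := ℚ) (E := F) _).2 hY)
    have hns : (gc (A * m) (B * m ^ 2) ℚ).toAffine.Nonsingular X Y := by
      rw [← ns_iff (sc_q (A * m) (B * m ^ 2) F), one_pow, one_pow, mul_one, mul_one, hX', hY']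
      exact (ns_iff (sc_tw hw hm) x y).2 hx
    refine ⟨Affine.Point.some X Y hns, ?_⟩
    show (Affine.Point.some (algebraMap ℚ F X * 1 ^ 2) (algebraMap ℚ F Y * 1 ^ 3) _ :
      (gc (A * m) (B * m ^ 2) F).toAffine.Point) = Affine.Point.some (x * w ^ 2) (y * w ^ 3) _
    rw [Affine.Point.some.injEq, one_pow, one_pow, mul_one, mul_one]
    exact ⟨hX', hY'⟩

/-- the rank of the part is at most the rank of the twist -/
theorem rank_eig [FiniteDimensional ℚ F] [IsGalois ℚ F] {m : ℤ} {w : F} (hw : w ^ 2 = (m : F))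
    (hm : m ≠ 0) {ε : (F ≃ₐ[ℚ] F) → ℤ} (hε : ∀ g, ε g = 1 ∨ ε g = -1)
    (hgw : ∀ g, g w = (ε g : F) * w) (hB : B * m ^ 2 ≠ 0)
    (hD : (A * m) ^ 2 - 4 * (B * m ^ 2) ≠ 0) :
    Module.rank ℤ (eig (ac A B F) ε) ≤ Module.finrank ℤ (MP (gc (A * m) (B * m ^ 2) ℚ)) := by
  have hfg : Module.Finite ℤ (MP (gc (A * m) (B * m ^ 2) ℚ)) := fg_MP (gc_isT hB hD ℚ)
  rw [Module.finrank_eq_rank]
  -- the maps
  let j : MP (gc (A * m) (B * m ^ 2) ℚ) →ₗ[ℤ] MP (gc (A * m) (B * m ^ 2) F) :=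
    (mt (sc_q (A * m) (B * m ^ 2) F)).toIntLinearMap
  have hj : Function.Injective j := mt_inj (sc_q (A * m) (B * m ^ 2) F)
  let f : eig (ac A B F) ε →ₗ[ℤ] MP (gc (A * m) (B * m ^ 2) F) :=
    (phi hw hm).toIntLinearMap ∘ₗ (eig (ac A B F) ε).subtype
  have hf : Function.Injective f := (phi_inj hw hm).comp Subtype.val_injective
  have hr : ∀ P, f P ∈ LinearMap.range j := by
    intro P
    obtain ⟨Q, hQ⟩ := phi_range hw hm hε hgw P.2
    exact ⟨Q, hQ⟩
  let f' : eig (ac A B F) ε →ₗ[ℤ] LinearMap.range j := LinearMap.codRestrict _ f hr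
  have hf' : Function.Injective f' := by
    intro P Q h
    exact hf (congrArg Subtype.val h)
  exact (LinearMap.rank_le_of_injective f' hf').trans
    (LinearEquiv.ofInjective j hj).rank_eq.ge

end

end Pool.Agent.U80.AM
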