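import Mathlib

/-!
# The dimension of an isotypic part of `ℂ ⊗ M` for a real character
-/

set_option autoImplicit false

open scoped TensorProduct

namespace Pool.Agent.U80.AM

section

variable {G M : Type} [Group G] [Finite G] [AddCommGroup M] (ac : G → M →+ M) (ε : G → ℤ)

/-- the points on which the group acts by the character -/
def eig : Submodule ℤ M where
  carrier := {P | ∀ g, ac g P = ε g • P}
  add_mem' := by
    intro P Q hP hQ g
    rw [map_add, hP g, hQ g, smul_add]
  zero_mem' := by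
    intro g
    rw [map_zero, smul_zero]
  smul_mem' := by
    intro n P hP g
    show ac g (n • P) = ε g • (n • P)
    rw [map_zsmul, hP g, smul_comm]

lemma mem_eig {P : M} : P ∈ eig ac ε ↔ ∀ g, ac g P = ε g • P := Iff.rfl

/-- the part of `ℂ ⊗ M` -/
noncomputable def prt : Submodule ℂ (ℂ ⊗[ℤ] M) where
  carrier := {v | ∀ g, LinearMap.baseChange ℂ (ac g).toIntLinearMap v = (ε g : ℂ) • v}
  add_mem' := by
    intro v w hv hw g
    rw [map_add, hv g, hw g, smul_add]
  zero_mem' := by
    intro g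
    rw [map_zero, smul_zero]
  smul_mem' := by
    intro c v hv g
    rw [map_smul, hv g, smul_comm]

theorem rank_prt (hmul : ∀ g h P, ac (g * h) P = ac g (ac h P))
    (hε : ∀ g, ε g = 1 ∨ ε g = -1) (hεm : ∀ g h, ε (g * h) = ε g * ε h) :
    Module.rank ℂ (prt ac ε) ≤ Module.rank ℤ (eig ac ε) := by
  classical
  haveI := Fintype.ofFinite G
  have hsq : ∀ g, ε g * ε g = 1 := by
    intro g
    rcases hε g with h | h <;> rw [h] <;> norm_num
  -- the projection
  let e0 : M →ₗ[ℤ] M := ∑ g : G, ε g • (ac g).toIntLinearMap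
  have he0 : ∀ P, e0 P = ∑ g : G, ε g • ac g P := by
    intro P
    simp only [e0, LinearMap.sum_apply, LinearMap.smul_apply]
    rfl
  have hmem : ∀ P, e0 P ∈ eig ac ε := by
    intro P h
    rw [he0, map_sum, Finset.smul_sum]
    refine Fintype.sum_equiv (Equiv.mulLeft h) _ _ fun g => ?_
    show ac h (ε g • ac g P) = ε h • (ε (h * g) • ac (h * g) P)
    rw [map_zsmul, hmul, hεm, smul_smul, ← mul_assoc, hsq, one_mul]
  let e1 : M →ₗ[ℤ] eig ac ε := LinearMap.codRestrict (eig ac ε) e0 hmem
  have hcomp : e0 = (eig ac ε).subtype ∘ₗ e1 := by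
    ext P
    rfl
  -- the image of the subgroup
  let j : ℂ ⊗[ℤ] eig ac ε →ₗ[ℂ] ℂ ⊗[ℤ] M := LinearMap.baseChange ℂ (eig ac ε).subtype
  have hle : prt ac ε ≤ LinearMap.range j := by
    intro v hv
    have h1 : LinearMap.baseChange ℂ e0 v = (Fintype.card G : ℂ) • v := by
      have h2 : LinearMap.baseChange ℂ e0 =
          ∑ g : G, ε g • LinearMap.baseChange ℂ (ac g).toIntLinearMap := by
        simp only [e0]
        rw [← LinearMap.baseChangeHom_apply]
        rw [map_sum]
        refine Finset.sum_congr rfl fun g _ => ?_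
        rw [map_smul]
        rfl
      rw [h2, LinearMap.sum_apply]
      have h3 : ∀ g ∈ (Finset.univ : Finset G),
          (ε g • LinearMap.baseChange ℂ (ac g).toIntLinearMap) v = v := by
        intro g _
        rw [LinearMap.smul_apply, hv g, ← Int.cast_smul_eq_zsmul ℂ, smul_smul]
        have : ((ε g : ℤ) : ℂ) * ((ε g : ℤ) : ℂ) = 1 := by exact_mod_cast hsq g
        rw [this, one_smul]
      rw [Finset.sum_congr rfl h3, Finset.sum_const, Finset.card_univ, ← Nat.cast_smul_eq_nsmul ℂ]
    have h4 : LinearMap.baseChange ℂ e0 v = j (LinearMap.baseChange ℂ e1 v) := by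
      rw [hcomp, LinearMap.baseChange_comp]
      rfl
    have hc : (Fintype.card G : ℂ) ≠ 0 := by
      exact_mod_cast Fintype.card_ne_zero
    refine ⟨(Fintype.card G : ℂ)⁻¹ • LinearMap.baseChange ℂ e1 v, ?_⟩
    rw [map_smul, ← h4, h1, smul_smul, inv_mul_cancel₀ hc, one_smul]
  have hbc := TensorProduct.isBaseChange ℤ (eig ac ε) ℂ
  have hrk : Module.rank ℂ (ℂ ⊗[ℤ] eig ac ε) = Module.rank ℤ (eig ac ε) := by
    have h := hbc.lift_rank_eq
    simpa using h
  calc Module.rank ℂ (prt ac ε) ≤ Module.rank ℂ (LinearMap.range j) :=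
        Submodule.rank_mono hle
    _ ≤ Module.rank ℂ (ℂ ⊗[ℤ] eig ac ε) := rank_range_le j
    _ = Module.rank ℤ (eig ac ε) := hrk

end

end Pool.Agent.U80.AM
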